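import Mathlib

/-!
# Rank-two recurrence sets of rational maps need not be semi-linear

For `f = g = z ^ 3` and `c = - z ^ (-5)` the set of pairs `(m, n)` for which some point `x` of the
projective line satisfies `c(x) = f^m(x) = g^n(x)` is the set of pairs for which `3 ^ m + 5` and
`3 ^ n + 5` have the same two-adic valuation, and this set is not semi-linear.
-/

set_option autoImplicit false

namespace Pool.Agent.Results.MP_2fa0cb_nt.RankTwoNotSemilinear

open Polynomial OnePoint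

/-- The degree of a rational function. -/
noncomputable def degree (h : RatFunc ℂ) : ℕ :=
  max h.num.natDegree h.denom.natDegree

open Classical in
/-- The self-map of the projective line `ℂ ∪ {∞}` defined by a rational function. -/
noncomputable def ratMap (h : RatFunc ℂ) (z : OnePoint ℂ) : OnePoint ℂ :=
  z.elim
    (if h.denom.coeff (degree h) = 0 then ∞
      else ((h.num.coeff (degree h) / h.denom.coeff (degree h) : ℂ) : OnePoint ℂ))
    fun x => if h.denom.eval x = 0 then ∞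
      else ((h.num.eval x / h.denom.eval x : ℂ) : OnePoint ℂ)

/-- The rank-two recurrence set: the pairs `(m, n)` for which some point `x` of the projective
line satisfies `c(x) = f^m(x) = g^n(x)`. -/
def recSet (f g c : RatFunc ℂ) : Set (ℕ × ℕ) :=
  {p | ∃ x : OnePoint ℂ, ratMap c x = (ratMap f)^[p.1] x ∧ ratMap c x = (ratMap g)^[p.2] x}

/-! ### Uniform periods of the sections of semi-linear sets -/

/-- The sections of `S` are eventually closed under adding `q`. -/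
def Per (q : ℕ) (S : Set (ℕ × ℕ)) : Prop :=
  ∀ m, ∃ N, ∀ n, N ≤ n → (m, n) ∈ S → (m, n + q) ∈ S

lemma Per.mul {q : ℕ} {S : Set (ℕ × ℕ)} (h : Per q S) (k : ℕ) : Per (q * k) S := by
  intro m
  obtain ⟨N, hN⟩ := h m
  refine ⟨N, fun n hn hm => ?_⟩
  induction k with
  | zero => simpa using hm
  | succ k ih =>
    have := hN (n + q * k) (by omega) ih
    rwa [Nat.mul_succ, ← Nat.add_assoc]

lemma per_closure (t : Set (ℕ × ℕ)) (ht : t.Finite) :
    ∃ q, 0 < q ∧ Per q (AddSubmonoid.closure t : Set (ℕ × ℕ)) := by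
  induction t, ht using Set.Finite.induction_on with
  | empty =>
    refine ⟨1, one_pos, fun m => ⟨1, fun n hn hm => ?_⟩⟩
    simp only [AddSubmonoid.closure_empty, SetLike.mem_coe, AddSubmonoid.mem_bot,
      Prod.mk_eq_zero] at hm
    omega
  | @insert p t _ _ ih =>
    obtain ⟨q, hq, hP⟩ := ih
    have key : ∀ x : ℕ × ℕ, x ∈ AddSubmonoid.closure (insert p t) ↔
        ∃ k : ℕ, ∃ y ∈ AddSubmonoid.closure t, k • p + y = x := by
      intro x
      rw [Set.insert_eq, AddSubmonoid.closure_union, AddSubmonoid.mem_sup]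
      simp only [AddSubmonoid.mem_closure_singleton]
      constructor
      · rintro ⟨_, ⟨k, rfl⟩, y, hy, rfl⟩
        exact ⟨k, y, hy, rfl⟩
      · rintro ⟨k, y, hy, rfl⟩
        exact ⟨_, ⟨k, rfl⟩, y, hy, rfl⟩
    by_cases h1 : p.1 = 0
    · by_cases h2 : p.2 = 0
      · have hp : p = 0 := Prod.ext h1 h2
        refine ⟨q, hq, ?_⟩
        have : (AddSubmonoid.closure (insert p t) : Set (ℕ × ℕ)) = AddSubmonoid.closure t := by
          ext x
          constructor
          · intro hx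
            obtain ⟨k, y, hy, rfl⟩ := (key x).1 hx
            rw [hp, smul_zero, zero_add]
            exact hy
          · intro hx
            exact (key x).2 ⟨0, x, hx, by simp⟩
        rw [this]
        exact hP
      · refine ⟨p.2, Nat.pos_of_ne_zero h2, fun m => ⟨0, fun n _ hm => ?_⟩⟩
        simp only [SetLike.mem_coe, key] at hm ⊢
        obtain ⟨k, y, hy, hxy⟩ := hm
        refine ⟨k + 1, y, hy, ?_⟩
        have e1 := congrArg Prod.fst hxy
        have e2 := congrArg Prod.snd hxy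
        simp only [Prod.fst_add, Prod.smul_fst, smul_eq_mul, Prod.snd_add, Prod.smul_snd] at e1 e2
        ext
        · simp only [Prod.fst_add, Prod.smul_fst, smul_eq_mul, h1, mul_zero] at e1 ⊢
          exact e1
        · simp only [Prod.snd_add, Prod.smul_snd, smul_eq_mul]
          rw [← e2]
          ring
    · refine ⟨q, hq, fun m => ?_⟩
      choose N hN using hP
      refine ⟨∑ k ∈ Finset.range (m + 1), (N (m - k * p.1) + k * p.2), fun n hn hm => ?_⟩
      simp only [SetLike.mem_coe, key] at hm ⊢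
      obtain ⟨k, y, hy, hxy⟩ := hm
      have e1 := congrArg Prod.fst hxy
      have e2 := congrArg Prod.snd hxy
      simp only [Prod.fst_add, Prod.smul_fst, smul_eq_mul, Prod.snd_add, Prod.smul_snd] at e1 e2
      have hk : k ≤ m := by
        have : k ≤ k * p.1 := Nat.le_mul_of_pos_right k (Nat.pos_of_ne_zero h1)
        omega
      have hle : N (m - k * p.1) + k * p.2 ≤
          ∑ k ∈ Finset.range (m + 1), (N (m - k * p.1) + k * p.2) :=
        Finset.single_le_sum (f := fun k => N (m - k * p.1) + k * p.2)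
          (fun _ _ => Nat.zero_le _) (Finset.mem_range.2 (by omega))
      have hy1 : y.1 = m - k * p.1 := by omega
      have hy2 : N (m - k * p.1) ≤ y.2 := by omega
      have := hN (m - k * p.1) y.2 hy2 (by rw [← hy1]; exact hy)
      refine ⟨k, (m - k * p.1, y.2 + q), this, ?_⟩
      ext
      · simp only [Prod.fst_add, Prod.smul_fst, smul_eq_mul]
        omega
      · simp only [Prod.snd_add, Prod.smul_snd, smul_eq_mul]
        omega

lemma per_linear {S : Set (ℕ × ℕ)} (hS : IsLinearSet S) : ∃ q, 0 < q ∧ Per q S := by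
  obtain ⟨a, t, ht, rfl⟩ := hS
  obtain ⟨q, hq, hP⟩ := per_closure t ht
  refine ⟨q, hq, fun m => ?_⟩
  obtain ⟨N, hN⟩ := hP (m - a.1)
  refine ⟨N + a.2, fun n hn hm => ?_⟩
  rw [Set.mem_vadd_set] at hm ⊢
  obtain ⟨y, hy, hxy⟩ := hm
  have e1 := congrArg Prod.fst hxy
  have e2 := congrArg Prod.snd hxy
  simp only [vadd_eq_add, Prod.fst_add, Prod.snd_add] at e1 e2
  have hy1 : y.1 = m - a.1 := by omega
  have := hN y.2 (by omega) (by rw [← hy1]; exact hy)
  refine ⟨_, this, ?_⟩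
  ext
  · simp only [vadd_eq_add, Prod.fst_add]
    omega
  · simp only [vadd_eq_add, Prod.snd_add]
    omega

lemma per_semilinear {S : Set (ℕ × ℕ)} (hS : IsSemilinearSet S) : ∃ q, 0 < q ∧ Per q S := by
  obtain ⟨T, hT, hlin, rfl⟩ := hS
  induction T, hT using Set.Finite.induction_on with
  | empty =>
    refine ⟨1, one_pos, fun m => ⟨0, fun n _ hm => ?_⟩⟩
    simp at hm
  | @insert s T _ _ ih =>
    obtain ⟨q, hq, hP⟩ := ih fun t ht => hlin t (Set.mem_insert_of_mem _ ht)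
    obtain ⟨r, hr, hR⟩ := per_linear (hlin s (Set.mem_insert _ _))
    refine ⟨q * r, Nat.mul_pos hq hr, fun m => ?_⟩
    obtain ⟨N, hN⟩ := hP.mul r m
    obtain ⟨M, hM⟩ := (hR.mul q) m
    refine ⟨N + M, fun n hn hm => ?_⟩
    rw [Set.sUnion_insert, Set.mem_union] at hm ⊢
    rcases hm with hm | hm
    · left
      have := hM n (by omega) hm
      rwa [Nat.mul_comm r q] at this
    · right
      exact hN n (by omega) hm

/-! ### Two-adic valuations of `3 ^ m + 5` -/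

lemma three_pow (k : ℕ) : ∃ u, Odd u ∧ 3 ^ (2 ^ (k + 1)) = 1 + 2 ^ (k + 3) * u := by
  induction k with
  | zero => exact ⟨1, odd_one, by norm_num⟩
  | succ k ih =>
    obtain ⟨u, hu, h⟩ := ih
    refine ⟨u + 2 ^ (k + 2) * u ^ 2, ?_, ?_⟩
    · refine hu.add_even ?_
      exact (Even.mul_right (by rw [Nat.even_pow]; exact ⟨even_two, by omega⟩) _)
    · have : 3 ^ (2 ^ (k + 1 + 1)) = (3 ^ (2 ^ (k + 1))) ^ 2 := by
        rw [← pow_mul, ← pow_succ]
      rw [this, h]
      ring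

lemma exists_dvd (j : ℕ) : ∃ m, 2 ^ (j + 3) ∣ 3 ^ m + 5 := by
  induction j with
  | zero => exact ⟨1, by norm_num⟩
  | succ j ih =>
    obtain ⟨m, hm⟩ := ih
    by_cases h : 2 ^ (j + 1 + 3) ∣ 3 ^ m + 5
    · exact ⟨m, h⟩
    · obtain ⟨v, hv⟩ := hm
      obtain ⟨u, hu, hu'⟩ := three_pow j
      have hv' : Odd v := by
        by_contra hc
        rw [Nat.not_odd_iff_even] at hc
        obtain ⟨w, rfl⟩ := hc
        apply h
        rw [hv]
        exact ⟨w, by ring⟩
      refine ⟨m + 2 ^ (j + 1), ?_⟩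
      have e : 3 ^ (m + 2 ^ (j + 1)) + 5 = 2 ^ (j + 3) * (v + u * 3 ^ m) := by
        rw [pow_add, hu']
        calc 3 ^ m * (1 + 2 ^ (j + 3) * u) + 5 = (3 ^ m + 5) + 2 ^ (j + 3) * (u * 3 ^ m) := by ring
          _ = _ := by rw [hv]; ring
      rw [e]
      have : Even (v + u * 3 ^ m) := hv'.add_odd (hu.mul (Odd.pow (by decide)))
      obtain ⟨w, hw⟩ := this
      exact ⟨w, by rw [hw]; ring⟩

/-- Being divisible by the same powers of two. -/
def SameVal (a b : ℕ) : Prop := ∀ s : ℕ, 2 ^ s ∣ a ↔ 2 ^ s ∣ b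

lemma sameVal_of_root {a b : ℕ} (ha : 0 < a) {x : ℂ} (h1 : x ^ a = -1) (h2 : x ^ b = -1)
    (s : ℕ) (hs : 2 ^ s ∣ b) : 2 ^ s ∣ a := by
  by_contra hc
  obtain ⟨t, c, hc', rfl⟩ := Nat.exists_eq_two_pow_mul_odd (Nat.pos_iff_ne_zero.1 ha)
  have hts : t < s := by
    by_contra hle
    exact hc (Dvd.dvd.mul_right (pow_dvd_pow 2 (by omega)) c)
  obtain ⟨r, rfl⟩ := hs
  have e : (x ^ (2 ^ s * r)) ^ c = (x ^ (2 ^ t * c)) ^ (2 ^ (s - t) * r) := by
    rw [← pow_mul, ← pow_mul]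
    congr 1
    have : 2 ^ s = 2 ^ t * 2 ^ (s - t) := by rw [← pow_add]; congr 1; omega
    rw [this]
    ring
  rw [h1, h2, hc'.neg_one_pow] at e
  have h3 : Even (2 ^ (s - t) * r) := by
    apply Even.mul_right
    rw [Nat.even_pow]
    exact ⟨even_two, by omega⟩
  rw [h3.neg_one_pow] at e
  norm_num at e

lemma exists_root {a b : ℕ} (ha : 0 < a) (hb : 0 < b) (h : SameVal a b) :
    ∃ x : ℂ, x ^ a = -1 ∧ x ^ b = -1 := by
  obtain ⟨s, c, hc, rfl⟩ := Nat.exists_eq_two_pow_mul_odd (Nat.pos_iff_ne_zero.1 ha)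
  obtain ⟨t, d, hd, rfl⟩ := Nat.exists_eq_two_pow_mul_odd (Nat.pos_iff_ne_zero.1 hb)
  have key : ∀ {s t c d : ℕ}, Odd c → Odd d → SameVal (2 ^ s * c) (2 ^ t * d) → t ≤ s := by
    intro s t c d hc hd h
    by_contra hlt
    have h1 := (h t).2 (Dvd.intro _ rfl)
    have h2 : 2 ^ (s + 1) ∣ 2 ^ s * c := (pow_dvd_pow 2 (by omega)).trans h1
    rw [pow_succ] at h2
    have h3 : 2 ∣ c := Nat.dvd_of_mul_dvd_mul_left (by positivity) h2
    obtain ⟨w, rfl⟩ := hc
    omega
  have hst : s = t := le_antisymm (key hd hc fun r => (h r).symm) (key hc hd h)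
  subst hst
  obtain ⟨x, hx⟩ := IsAlgClosed.exists_pow_nat_eq (-1 : ℂ) (n := 2 ^ s) (by positivity)
  exact ⟨x, by rw [pow_mul, hx, hc.neg_one_pow], by rw [pow_mul, hx, hd.neg_one_pow]⟩

lemma not_per (q : ℕ) (hq : 0 < q) : ¬ Per q {p | SameVal (3 ^ p.1 + 5) (3 ^ p.2 + 5)} := by
  intro h
  have hpos : 0 < 5 * (3 ^ q - 1) := by
    have : 3 ≤ 3 ^ q := by
      calc 3 = 3 ^ 1 := by norm_num
        _ ≤ 3 ^ q := Nat.pow_le_pow_right (by norm_num) hq
    omega
  obtain ⟨m, hm⟩ := exists_dvd (5 * (3 ^ q - 1))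
  obtain ⟨N, hN⟩ := h m
  obtain ⟨v, c, hc, hv⟩ := Nat.exists_eq_two_pow_mul_odd (n := 3 ^ m + 5) (by positivity)
  -- the pair `(m, m + 2 ^ (v + 1) * N)` lies in the set
  obtain ⟨u, -, hu⟩ := three_pow v
  have hT : ∃ w, 3 ^ (2 ^ (v + 1) * N) = 1 + 2 ^ (v + 1) * w := by
    rw [pow_mul, hu]
    have h1 : (1 + 2 ^ (v + 3) * u) ^ N ≡ 1 [MOD 2 ^ (v + 1)] := by
      have : 1 + 2 ^ (v + 3) * u ≡ 1 [MOD 2 ^ (v + 1)] := by
        have h2 : 2 ^ (v + 3) * u = 2 ^ (v + 1) * (4 * u) := by ring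
        rw [h2]
        have := (Nat.ModEq.refl (n := 2 ^ (v + 1)) 1).add
          ((Nat.modEq_zero_iff_dvd.2 (Dvd.intro (4 * u) rfl) :
            2 ^ (v + 1) * (4 * u) ≡ 0 [MOD 2 ^ (v + 1)]))
        simpa using this
      simpa only [one_pow] using this.pow N
    have h3 : 1 ≤ (1 + 2 ^ (v + 3) * u) ^ N := Nat.one_le_pow _ _ (by omega)
    obtain ⟨w, hw⟩ := (Nat.modEq_iff_dvd' h3).1 h1.symm
    exact ⟨w, by omega⟩
  obtain ⟨w, hw⟩ := hT
  set n := m + 2 ^ (v + 1) * N with hn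
  have e1 : 3 ^ n + 5 = 2 ^ v * (c + 2 * (w * 3 ^ m)) := by
    rw [hn, pow_add, hw]
    calc 3 ^ m * (1 + 2 ^ (v + 1) * w) + 5 = (3 ^ m + 5) + 2 ^ v * (2 * (w * 3 ^ m)) := by ring
      _ = _ := by rw [hv]; ring
  have hodd : Odd (c + 2 * (w * 3 ^ m)) := hc.add_even (even_two_mul _)
  have hval : ∀ {a : ℕ}, Odd a → ∀ s, 2 ^ s ∣ 2 ^ v * a ↔ s ≤ v := by
    intro a ha s
    constructor
    · intro hs
      by_contra hlt
      have h2 : 2 ^ (v + 1) ∣ 2 ^ v * a := (pow_dvd_pow 2 (by omega)).trans hs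
      rw [pow_succ] at h2
      have h3 : 2 ∣ a := Nat.dvd_of_mul_dvd_mul_left (by positivity) h2
      obtain ⟨w, rfl⟩ := ha
      omega
    · intro hs
      exact Dvd.dvd.mul_right (pow_dvd_pow 2 hs) a
  have hmem : (m, n) ∈ {p : ℕ × ℕ | SameVal (3 ^ p.1 + 5) (3 ^ p.2 + 5)} := by
    intro s
    simp only
    rw [hv, e1, hval hc, hval hodd]
  have hmem' := hN n (by
    rw [hn]
    have : N ≤ 2 ^ (v + 1) * N := Nat.le_mul_of_pos_left N (by positivity)
    omega) hmem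
  set j := 5 * (3 ^ q - 1) + 3 with hj
  have d1 : 2 ^ j ∣ 3 ^ n + 5 := (hmem j).1 hm
  have d2 : 2 ^ j ∣ 3 ^ (n + q) + 5 := (hmem' j).1 hm
  have d3 : 2 ^ j ∣ 5 * (3 ^ q - 1) := by
    have e : 3 ^ q * (3 ^ n + 5) = (3 ^ (n + q) + 5) + 5 * (3 ^ q - 1) := by
      have h1 : 1 ≤ 3 ^ q := Nat.one_le_pow _ _ (by norm_num)
      have h2 : 3 ^ (n + q) = 3 ^ q * 3 ^ n := by rw [pow_add, Nat.mul_comm]
      rw [h2, Nat.mul_add]
      omega
    have : 2 ^ j ∣ (3 ^ (n + q) + 5) + 5 * (3 ^ q - 1) := by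
      rw [← e]
      exact Dvd.dvd.mul_left d1 _
    exact (Nat.dvd_add_right d2).1 this
  have := Nat.le_of_dvd hpos d3
  have hlt : j < 2 ^ j := Nat.lt_two_pow_self
  omega

/-! ### The maps `z ^ 3` and `- z ^ (-5)` -/

/-- `z ^ 3` -/
noncomputable def f : RatFunc ℂ := RatFunc.X ^ 3

/-- `- z ^ (-5)` -/
noncomputable def c : RatFunc ℂ := -(RatFunc.X ^ 5)⁻¹

lemma f_eq : f = algebraMap ℂ[X] (RatFunc ℂ) (X ^ 3) := by
  rw [f, map_pow, RatFunc.algebraMap_X]

lemma f_num : f.num = X ^ 3 := by rw [f_eq, RatFunc.num_algebraMap]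

lemma f_denom : f.denom = 1 := by rw [f_eq, RatFunc.denom_algebraMap]

lemma f_degree : degree f = 3 := by
  rw [degree, f_num, f_denom]
  simp

lemma c_eq : c = algebraMap ℂ[X] (RatFunc ℂ) (-1) / algebraMap ℂ[X] (RatFunc ℂ) (X ^ 5) := by
  rw [c, map_pow, RatFunc.algebraMap_X, map_neg, map_one, div_eq_mul_inv, neg_mul, one_mul]

lemma gcd_eq : gcd (-1 : ℂ[X]) (X ^ 5) = 1 := by
  have h : IsCoprime (-1 : ℂ[X]) (X ^ 5) := ⟨-1, 0, by ring⟩
  have h2 := (gcd_isUnit_iff (-1 : ℂ[X]) (X ^ 5)).2 h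
  have h3 : normalize (gcd (-1 : ℂ[X]) (X ^ 5)) = 1 := normalize_eq_one.2 h2
  rwa [normalize_gcd] at h3

lemma c_num : c.num = -1 := by
  rw [c_eq, RatFunc.num_div, gcd_eq]
  simp

lemma c_denom : c.denom = X ^ 5 := by
  rw [c_eq, RatFunc.denom_div _ (pow_ne_zero 5 X_ne_zero), gcd_eq]
  simp

lemma c_degree : degree c = 5 := by
  rw [degree, c_num, c_denom]
  simp

lemma ratMap_f_coe (x : ℂ) : ratMap f (x : OnePoint ℂ) = ((x ^ 3 : ℂ) : OnePoint ℂ) := by
  simp [ratMap, f_num, f_denom]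

lemma ratMap_f_infty : ratMap f ∞ = ∞ := by
  simp [ratMap, f_num, f_denom, f_degree, Polynomial.coeff_one]

lemma ratMap_c_coe (x : ℂ) (hx : x ≠ 0) :
    ratMap c (x : OnePoint ℂ) = ((-(x ^ 5)⁻¹ : ℂ) : OnePoint ℂ) := by
  have : x ^ 5 ≠ 0 := pow_ne_zero 5 hx
  simp [ratMap, c_num, c_denom, hx, neg_div]

lemma ratMap_c_zero : ratMap c ((0 : ℂ) : OnePoint ℂ) = ∞ := by
  simp [ratMap, c_num, c_denom]

lemma ratMap_c_infty : ratMap c ∞ = ((0 : ℂ) : OnePoint ℂ) := by
  have h : (-1 : ℂ[X]).coeff 5 = 0 := by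
    rw [Polynomial.coeff_neg, Polynomial.coeff_one]
    simp
  simp [ratMap, c_num, c_denom, c_degree, h]

lemma iter_infty (n : ℕ) : (ratMap f)^[n] ∞ = ∞ := by
  induction n with
  | zero => rfl
  | succ n ih => rw [Function.iterate_succ_apply', ih, ratMap_f_infty]

lemma iter_coe (n : ℕ) (x : ℂ) :
    (ratMap f)^[n] (x : OnePoint ℂ) = ((x ^ (3 ^ n) : ℂ) : OnePoint ℂ) := by
  induction n with
  | zero => simp
  | succ n ih => rw [Function.iterate_succ_apply', ih, ratMap_f_coe, ← pow_mul, ← pow_succ]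

lemma hit_iff (n : ℕ) (x : OnePoint ℂ) :
    ratMap c x = (ratMap f)^[n] x ↔ ∃ y : ℂ, (y : OnePoint ℂ) = x ∧ y ^ (3 ^ n + 5) = -1 := by
  induction x using OnePoint.rec with
  | infty =>
    rw [ratMap_c_infty, iter_infty]
    simp
  | coe x =>
    rw [iter_coe]
    by_cases hx : x = 0
    · subst hx
      rw [ratMap_c_zero]
      simp
    · rw [ratMap_c_coe x hx]
      simp only [OnePoint.coe_eq_coe, exists_eq_left]
      have h5 : x ^ 5 ≠ 0 := pow_ne_zero 5 hx
      rw [pow_add]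
      constructor
      · intro h
        rw [← h, neg_mul, inv_mul_cancel₀ h5]
      · intro h
        field_simp
        rw [← h]
        ring

lemma recSet_eq : recSet f f c = {p | SameVal (3 ^ p.1 + 5) (3 ^ p.2 + 5)} := by
  ext ⟨m, n⟩
  simp only [recSet, Set.mem_ofPred_eq, hit_iff]
  constructor
  · rintro ⟨_, ⟨y, rfl, hy⟩, ⟨z, hz, hz'⟩⟩
    rw [OnePoint.coe_eq_coe] at hz
    subst hz
    exact fun s => ⟨sameVal_of_root (by positivity) hz' hy s,
      sameVal_of_root (by positivity) hy hz' s⟩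
  · intro h
    obtain ⟨x, h1, h2⟩ := exists_root (by positivity) (by positivity) h
    exact ⟨x, ⟨x, rfl, h1⟩, ⟨x, rfl, h2⟩⟩

/-- **Negative answer to Q2.** There are rational functions `f`, `g`, `c` over `ℂ`, with `f` and
`g` of degree at least two, whose rank-two recurrence set is not semi-linear. -/
theorem result : ∃ f g c : RatFunc ℂ, 2 ≤ degree f ∧ 2 ≤ degree g ∧
    ¬ IsSemilinearSet (recSet f g c) := by
  refine ⟨f, f, c, ?_, ?_, ?_⟩
  · rw [f_degree]
    norm_num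
  · rw [f_degree]
    norm_num
  · intro h
    rw [recSet_eq] at h
    obtain ⟨q, hq, hP⟩ := per_semilinear h
    exact not_per q hq hP

end Pool.Agent.Results.MP_2fa0cb_nt.RankTwoNotSemilinear
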